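import Pool.Agent.U866.OM.Stm

/-!
# Project OM, package CUT: a wide cut-off costs `O(η)`
-/

set_option autoImplicit false

namespace Pool.Agent.U511.OM

open Pool.Agent.H498R3.GB Pool.Agent.U866.OM
open scoped BigOperators ContDiff Topology Matrix
open MeasureTheory Filter Metric

/-- bounded functions at distance `O(η)` -/
def Cl {X : Type} (F F' : ℝ → X → ℝ) : Prop :=
  ∃ C : ℝ, 0 ≤ C ∧ ∀ η : ℝ, 0 < η → η ≤ 1 → ∀ x, |F η x| ≤ C ∧ |F' η x| ≤ C ∧ |F η x - F' η x| ≤ C * η

section closure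

variable {X : Type} {F F' G G' : ℝ → X → ℝ}

theorem Cl.add (h : Cl F F') (k : Cl G G') : Cl (fun η x => F η x + G η x) (fun η x => F' η x + G' η x) := by
  obtain ⟨C, hC, h⟩ := h
  obtain ⟨D, hD, k⟩ := k
  refine ⟨C + D, by positivity, fun η h0 h1 x => ?_⟩
  obtain ⟨a1, a2, a3⟩ := h η h0 h1 x
  obtain ⟨b1, b2, b3⟩ := k η h0 h1 x
  refine ⟨(abs_add_le _ _).trans (add_le_add a1 b1), (abs_add_le _ _).trans (add_le_add a2 b2), ?_⟩
  have e : F η x + G η x - (F' η x + G' η x) = (F η x - F' η x) + (G η x - G' η x) := by ring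
  rw [e]
  exact (abs_add_le _ _).trans (by linarith)

theorem Cl.sub (h : Cl F F') (k : Cl G G') : Cl (fun η x => F η x - G η x) (fun η x => F' η x - G' η x) := by
  obtain ⟨C, hC, h⟩ := h
  obtain ⟨D, hD, k⟩ := k
  refine ⟨C + D, by positivity, fun η h0 h1 x => ?_⟩
  obtain ⟨a1, a2, a3⟩ := h η h0 h1 x
  obtain ⟨b1, b2, b3⟩ := k η h0 h1 x
  refine ⟨(abs_sub _ _).trans (add_le_add a1 b1), (abs_sub _ _).trans (add_le_add a2 b2), ?_⟩
  have e : F η x - G η x - (F' η x - G' η x) = (F η x - F' η x) - (G η x - G' η x) := by ring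
  rw [e]
  exact (abs_sub _ _).trans (by linarith)

theorem Cl.mul (h : Cl F F') (k : Cl G G') : Cl (fun η x => F η x * G η x) (fun η x => F' η x * G' η x) := by
  obtain ⟨C, hC, h⟩ := h
  obtain ⟨D, hD, k⟩ := k
  refine ⟨2 * (C * D), by positivity, fun η h0 h1 x => ?_⟩
  obtain ⟨a1, a2, a3⟩ := h η h0 h1 x
  obtain ⟨b1, b2, b3⟩ := k η h0 h1 x
  have hCD : 0 ≤ C * D := by positivity
  refine ⟨?_, ?_, ?_⟩
  · rw [abs_mul]
    have := mul_le_mul a1 b1 (abs_nonneg _) hC
    linarith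
  · rw [abs_mul]
    have := mul_le_mul a2 b2 (abs_nonneg _) hC
    linarith
  · have e : F η x * G η x - F' η x * G' η x =
        (F η x - F' η x) * G η x + F' η x * (G η x - G' η x) := by ring
    rw [e]
    refine (abs_add_le _ _).trans ?_
    rw [abs_mul, abs_mul]
    have c1 := mul_le_mul a3 b1 (abs_nonneg _) (by positivity : 0 ≤ C * η)
    have c2 := mul_le_mul a2 b3 (abs_nonneg _) hC
    nlinarith

theorem Cl.zero : Cl (fun _ (_ : X) => (0 : ℝ)) (fun _ _ => 0) :=
  ⟨0, le_rfl, fun η _ _ x => by simp⟩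

theorem Cl.sum {ι : Type} (s : Finset ι) {F F' : ι → ℝ → X → ℝ} (h : ∀ i, Cl (F i) (F' i)) :
    Cl (fun η x => ∑ i ∈ s, F i η x) (fun η x => ∑ i ∈ s, F' i η x) := by
  classical
  induction s using Finset.induction_on with
  | empty => simpa using Cl.zero
  | insert a s ha ih =>
    simp only [Finset.sum_insert ha]
    exact (h a).add ih

end closure

theorem contDiff_pd {m : ℕ} {f : E m → ℝ} (hf : ContDiff ℝ ∞ f) (i : Fin m) : ContDiff ℝ ∞ (pd i f) := by
  unfold pd
  exact (hf.fderiv_right (m := ∞) (by simp)).clm_apply contDiff_const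

theorem pd_scale {m : ℕ} {f : E m → ℝ} (hf : ContDiff ℝ ∞ f) (η : ℝ) (i : Fin m) (x : E m) :
    pd i (fun z => f (η • z)) x = η * pd i f (η • x) := by
  have h1 : HasFDerivAt (fun z : E m => η • z) (η • ContinuousLinearMap.id ℝ (E m)) x :=
    (hasFDerivAt_id x).const_smul η
  have h2 : HasFDerivAt f (fderiv ℝ f (η • x)) (η • x) := (diff_of hf _).hasFDerivAt
  have h3 := h2.comp x h1
  have h4 := pd_of_hasFDerivAt h3 i
  simp only [Function.comp_def] at h4
  rw [h4]
  simp [pd]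

theorem bdd_of {m : ℕ} {f : E m → ℝ} (hf : Continuous f) (h0 : ∀ x, 2 < ‖x‖ → f x = 0) :
    ∃ B, ∀ x, |f x| ≤ B := by
  obtain ⟨B, hB⟩ := (isCompact_closedBall (0 : E m) 2).exists_bound_of_continuousOn hf.continuousOn
  refine ⟨max B 0, fun x => ?_⟩
  by_cases hx : ‖x‖ ≤ 2
  · have := hB x (by simpa using hx)
    rw [Real.norm_eq_abs] at this
    exact this.trans (le_max_left _ _)
  · rw [h0 x (not_le.1 hx), abs_zero]
    exact le_max_right _ _

theorem pd_zero_of {m : ℕ} {f : E m → ℝ} (h0 : ∀ x, 2 < ‖x‖ → f x = 0) (i : Fin m) :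
    ∀ x, 2 < ‖x‖ → pd i f x = 0 := by
  intro x hx
  have h1 : f =ᶠ[𝓝 x] fun _ => (0 : ℝ) := by
    have : IsOpen {z : E m | 2 < ‖z‖} := isOpen_lt continuous_const continuous_norm
    filter_upwards [this.mem_nhds hx] with z hz using h0 z hz
  have h2 := h1.fderiv_eq (𝕜 := ℝ)
  unfold pd
  rw [h2]
  simp

section main

variable {m : ℕ} {χ ψ : E m → ℝ}

theorem p_eq (hχ : ContDiff ℝ ∞ χ) (hψ : ContDiff ℝ ∞ ψ) (η : ℝ) (i : Fin m) :
    pd i (fun z => χ (η • z) * ψ z) =
      fun x => χ (η • x) * pd i ψ x + η * (pd i χ (η • x) * ψ x) := by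
  funext x
  have hs : ContDiff ℝ ∞ fun z : E m => χ (η • z) := hχ.comp (contDiff_const_smul η)
  rw [pd_mul (diff_of hs x) (diff_of hψ x), pd_scale hχ]
  ring

theorem A_eq (hχ : ContDiff ℝ ∞ χ) (hψ : ContDiff ℝ ∞ ψ) (η : ℝ) (i j : Fin m) (x : E m) :
    pd i (pd j (fun z => χ (η • z) * ψ z)) x =
      χ (η • x) * pd i (pd j ψ) x + η * (pd i χ (η • x) * pd j ψ x + (pd j χ (η • x) * pd i ψ x +
        η * (pd i (pd j χ) (η • x) * ψ x))) := by
  have hs : ContDiff ℝ ∞ fun z : E m => χ (η • z) := hχ.comp (contDiff_const_smul η)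
  have hj := contDiff_pd hχ j
  have hsj : ContDiff ℝ ∞ fun z : E m => pd j χ (η • z) := hj.comp (contDiff_const_smul η)
  have hψj := contDiff_pd hψ j
  have h1 : ContDiff ℝ ∞ fun z : E m => χ (η • z) * pd j ψ z := hs.mul hψj
  have h2 : ContDiff ℝ ∞ fun z : E m => pd j χ (η • z) * ψ z := hsj.mul hψ
  rw [p_eq hχ hψ, pd_add (diff_of h1 x) (diff_of (contDiff_const.mul h2) x),
    pd_const_mul η (diff_of h2 x), p_eq hχ hψj, p_eq hj hψ]
  ring

theorem cl_base {a b : ℝ → E m → ℝ} {B : ℝ} (ha : ∀ η x, |a η x| ≤ B)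
    (hb : ∀ η, 0 < η → η ≤ 1 → ∀ x, |b η x| ≤ B) (hB : 0 ≤ B) :
    Cl (fun η x => a η x + η * b η x) a := by
  refine ⟨2 * B, by positivity, fun η h0 h1 x => ?_⟩
  have e1 := ha η x
  have e2 := hb η h0 h1 x
  have e3 : |η * b η x| ≤ B * η := by
    rw [abs_mul, abs_of_pos h0]
    nlinarith [abs_nonneg (b η x)]
  refine ⟨(abs_add_le _ _).trans ?_, by linarith, ?_⟩
  · nlinarith
  · rw [add_sub_cancel_left]
    nlinarith

/-- **CUT**: a wide cut-off costs `O(η)`. -/
theorem t_CUT : S_CUT := by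
  intro m χ ψ hχ hψ
  have z0 : ∀ x : E m, 2 < ‖x‖ → χ x = 0 := fun x hx => hχ.zero x hx.le
  obtain ⟨B0, hB0⟩ := hψ.b0
  obtain ⟨B1, hB1⟩ := hψ.b1
  obtain ⟨B2, hB2⟩ := hψ.b2
  have c1 : ∀ i : Fin m, ∃ B, ∀ x, |pd i χ x| ≤ B := fun i =>
    bdd_of (contDiff_pd hχ.smooth i).continuous (pd_zero_of z0 i)
  have c2 : ∀ i j : Fin m, ∃ B, ∀ x, |pd i (pd j χ) x| ≤ B := fun i j =>
    bdd_of (contDiff_pd (contDiff_pd hχ.smooth j) i).continuous (pd_zero_of (pd_zero_of z0 j) i)
  choose D1 hD1 using c1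
  choose D2 hD2 using c2
  have hχ1 : ∀ x, |χ x| ≤ 1 := fun x => by
    rw [abs_of_nonneg (hχ.nonneg x)]
    exact hχ.le_one x
  -- first derivatives
  have hp : ∀ i : Fin m, Cl (fun (η : ℝ) (x : E m) => p (fun z => χ (η • z) * ψ z) x i)
      (fun η x => χ (η • x) * p ψ x i) := by
    intro i
    have hb := cl_base (m := m) (a := fun η x => χ (η • x) * pd i ψ x)
      (b := fun η x => pd i χ (η • x) * ψ x) (B := max (max B1 (D1 i * B0)) 0)
      (fun η x => by
        rw [abs_mul]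
        have h1 := hχ1 (η • x)
        have h2 := hB1 x i
        have : |χ (η • x)| * |pd i ψ x| ≤ B1 := by
          nlinarith [abs_nonneg (χ (η • x)), abs_nonneg (pd i ψ x)]
        exact this.trans ((le_max_left _ _).trans (le_max_left _ _)))
      (fun η _ _ x => by
        rw [abs_mul]
        have h1 := hD1 i (η • x)
        have h2 := hB0 x
        have : |pd i χ (η • x)| * |ψ x| ≤ D1 i * B0 :=
          mul_le_mul h1 h2 (abs_nonneg _) ((abs_nonneg _).trans h1)
        exact this.trans ((le_max_right _ _).trans (le_max_left _ _)))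
      (le_max_right _ _)
    refine (show Cl _ _ from ?_)
    have e : (fun (η : ℝ) (x : E m) => p (fun z => χ (η • z) * ψ z) x i) =
        fun η x => χ (η • x) * pd i ψ x + η * (pd i χ (η • x) * ψ x) := by
      funext η x
      unfold p
      rw [p_eq hχ.smooth hψ.smooth]
    rw [e]
    exact hb
  -- second derivatives
  have hA : ∀ i j : Fin m, Cl (fun (η : ℝ) (x : E m) => A (fun z => χ (η • z) * ψ z) x i j)
      (fun η x => χ (η • x) * A ψ x i j) := by
    intro i j
    have hb := cl_base (m := m) (a := fun η x => χ (η • x) * pd i (pd j ψ) x)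
      (b := fun η x => pd i χ (η • x) * pd j ψ x + (pd j χ (η • x) * pd i ψ x +
        η * (pd i (pd j χ) (η • x) * ψ x)))
      (B := max (max B2 (D1 i * B1 + (D1 j * B1 + D2 i j * B0))) 0)
      (fun η x => by
        rw [abs_mul]
        have h1 := hχ1 (η • x)
        have h2 := hB2 x i j
        have : |χ (η • x)| * |pd i (pd j ψ) x| ≤ B2 := by
          nlinarith [abs_nonneg (χ (η • x)), abs_nonneg (pd i (pd j ψ) x)]
        exact this.trans ((le_max_left _ _).trans (le_max_left _ _)))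
      (fun η h0 h1 x => by
        have k1 : |pd i χ (η • x) * pd j ψ x| ≤ D1 i * B1 := by
          rw [abs_mul]
          exact mul_le_mul (hD1 i _) (hB1 x j) (abs_nonneg _) ((abs_nonneg _).trans (hD1 i (η • x)))
        have k2 : |pd j χ (η • x) * pd i ψ x| ≤ D1 j * B1 := by
          rw [abs_mul]
          exact mul_le_mul (hD1 j _) (hB1 x i) (abs_nonneg _) ((abs_nonneg _).trans (hD1 j (η • x)))
        have k3 : |pd i (pd j χ) (η • x) * ψ x| ≤ D2 i j * B0 := by
          rw [abs_mul]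
          exact mul_le_mul (hD2 i j _) (hB0 x) (abs_nonneg _) ((abs_nonneg _).trans (hD2 i j (η • x)))
        have k4 : |η * (pd i (pd j χ) (η • x) * ψ x)| ≤ D2 i j * B0 := by
          rw [abs_mul, abs_of_pos h0]
          nlinarith [abs_nonneg (pd i (pd j χ) (η • x) * ψ x)]
        have k5 := (abs_add_le (pd i χ (η • x) * pd j ψ x) (pd j χ (η • x) * pd i ψ x +
          η * (pd i (pd j χ) (η • x) * ψ x))).trans (add_le_add k1 ((abs_add_le _ _).trans
            (add_le_add k2 k4)))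
        exact k5.trans ((le_max_right _ _).trans (le_max_left _ _)))
      (le_max_right _ _)
    have e : (fun (η : ℝ) (x : E m) => A (fun z => χ (η • z) * ψ z) x i j) =
        fun η x => χ (η • x) * pd i (pd j ψ) x + η * (pd i χ (η • x) * pd j ψ x +
          (pd j χ (η • x) * pd i ψ x + η * (pd i (pd j χ) (η • x) * ψ x))) := by
      funext η x
      unfold A
      exact A_eq hχ.smooth hψ.smooth η i j x
    rw [e]
    exact hb
  -- the polynomial
  have hQ : Cl (fun (η : ℝ) (x : E m) => Q (fun z => χ (η • z) * ψ z) x)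
      (fun η x => (∑ i, χ (η • x) * A ψ x i i) * (∑ i, ∑ j, χ (η • x) * A ψ x i j *
        (χ (η • x) * p ψ x i) * (χ (η • x) * p ψ x j)) -
        ∑ i, (∑ j, χ (η • x) * A ψ x i j * (χ (η • x) * p ψ x j)) *
          (∑ j, χ (η • x) * A ψ x i j * (χ (η • x) * p ψ x j))) := by
    have h1 := Cl.sum Finset.univ fun i : Fin m => hA i i
    have h2 := Cl.sum Finset.univ fun i : Fin m => Cl.sum Finset.univ fun j : Fin m =>
      ((hA i j).mul (hp i)).mul (hp j)
    have h3 := fun i : Fin m => Cl.sum Finset.univ fun j : Fin m => (hA i j).mul (hp j)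
    have h4 := Cl.sum Finset.univ fun i : Fin m => (h3 i).mul (h3 i)
    have h5 := (h1.mul h2).sub h4
    unfold Q
    simp only [pow_two]
    exact h5
  obtain ⟨C, -, hC⟩ := hQ
  refine ⟨C, fun η h0 h1 x => ?_⟩
  refine le_trans (le_of_eq ?_) (hC η h0 h1 x).2.2
  congr 2
  beta_reduce
  set c := χ (η • x)
  have e1 : ∑ i, c * A ψ x i i = c * ∑ i, A ψ x i i := by rw [Finset.mul_sum]
  have e2 : ∑ i, ∑ j, c * A ψ x i j * (c * p ψ x i) * (c * p ψ x j) =
      c ^ 3 * ∑ i, ∑ j, A ψ x i j * p ψ x i * p ψ x j := by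
    simp only [Finset.mul_sum]
    exact Finset.sum_congr rfl fun i _ => Finset.sum_congr rfl fun j _ => by ring
  have e3 : ∀ i, ∑ j, c * A ψ x i j * (c * p ψ x j) = c ^ 2 * ∑ j, A ψ x i j * p ψ x j := by
    intro i
    rw [Finset.mul_sum]
    exact Finset.sum_congr rfl fun j _ => by ring
  have e4 : ∑ i, (∑ j, c * A ψ x i j * (c * p ψ x j)) * (∑ j, c * A ψ x i j * (c * p ψ x j)) =
      c ^ 4 * ∑ i, (∑ j, A ψ x i j * p ψ x j) ^ 2 := by
    rw [Finset.mul_sum]
    exact Finset.sum_congr rfl fun i _ => by rw [e3 i]; ring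
  rw [e1, e2, e4]
  unfold Q
  ring

end main

end Pool.Agent.U511.OM
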